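import Mathlib
import Pool.Prelude.Def_F_c31e40fa
import Pool.Agent.T2H09.DH.Pow

set_option autoImplicit false

open Filter Metric

namespace Pool.Agent.Results.MP_af9036_an.CriticalOrbitInequality

/-- The polynomial `z ^ n + c`. -/
def f (n : ℕ) (c : ℂ) : ℂ → ℂ := fun z => z ^ n + c

/-- The parameters `c` for which `z ^ n + c` has an attracting cycle. -/
def hyp (n : ℕ) : Set ℂ := {c | ∃ m z, N62a1eb23.IsAttractingCycle (f n c) m z}

/-- The derivative of the `N`-th iterate at the critical value `c`. -/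
noncomputable def P (n : ℕ) (c : ℂ) (N : ℕ) : ℂ := deriv (f n c)^[N] c

/-- The values of `T` along the orbit of the critical value, weighted by the inverse
derivatives. -/
noncomputable def W (n : ℕ) (c : ℂ) (T : ℂ → ℂ) (N : ℕ) : ℂ :=
  ∑ j ∈ Finset.range N, T ((f n c)^[j] c) / P n c j

private lemma P_eq (n : ℕ) (c : ℂ) (N : ℕ) : P n c N = Pool.Agent.W746.LD.P n c c N :=
  (Pool.Agent.W746.LD.hasDerivAt_orb (n := n) (c := c) c N).deriv

private lemma W_eq (n : ℕ) (c : ℂ) (T : ℂ → ℂ) (N : ℕ) : W n c T N =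
    ∑ j ∈ Finset.range N, T (Pool.Agent.W746.LD.orb n c c j) / Pool.Agent.W746.LD.P n c c j := by
  unfold W
  refine Finset.sum_congr rfl fun j _ => ?_
  rw [P_eq]
  rfl

/-- The critical orbit against the distance to the parameters with an attracting cycle. -/
theorem result (n : ℕ) (hn : 2 ≤ n) :
    -- (1) all test functions on the disc of radius `3`
    (∀ c ∈ N62a1eb23.multibrotSet n, ∀ (N : ℕ) (T : ℂ → ℂ), Differentiable ℂ T →
      ∀ M : ℝ, (∀ z : ℂ, ‖z‖ ≤ 3 → ‖T z‖ ≤ M) →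
        infDist c (hyp n) * ‖P n c N‖ * ‖W n c T N‖ ≤ 40 * M) ∧
    -- (2) all test functions on a disc which is larger than the escape disc
    (∀ R : ℝ, 0 < R → 2 < R ^ (n - 1) → ∃ K : ℝ, 0 < K ∧
      ∀ c ∈ N62a1eb23.multibrotSet n, ∀ (N : ℕ) (T : ℂ → ℂ), Differentiable ℂ T →
      ∀ M : ℝ, (∀ z : ℂ, ‖z‖ ≤ R → ‖T z‖ ≤ M) →
        infDist c (hyp n) * ‖P n c N‖ * ‖W n c T N‖ ≤ K * M) ∧
    -- (3) the distance against the derivative alone
    (∀ ε : ℝ, 0 < ε → ∃ C : ℝ, 0 < C ∧ ∀ c ∈ N62a1eb23.multibrotSet n, ∀ N : ℕ,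
      infDist c (hyp n) ^ (n - 1) * ‖P n c N‖ ^ (2 * n - 1) ≤
        C * ((1 + ε) * (2 * n) ^ n) ^ N) ∧
    -- (4) density at the parameters with a large upper Lyapunov exponent of the critical value
    (∀ c ∈ N62a1eb23.multibrotSet n, ∀ χ : ℝ, n / (2 * n - 1) * Real.log (2 * n) < χ →
      (∃ᶠ N : ℕ in atTop, Real.exp (χ * N) ≤ ‖P n c N‖) → c ∈ closure (hyp n)) ∧
    -- (5) the threshold is smaller than `log n`
    (3 ≤ n → n / (2 * n - 1) * Real.log (2 * n) < Real.log n) := by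
  refine ⟨?_, ?_, ?_, ?_, ?_⟩
  · intro c hc N T hT M hM
    rw [P_eq, W_eq]
    exact Pool.Agent.T2H09.DH.ineq hn hc N hT hM
  · intro R hR0 hR
    obtain ⟨ρ, h0, hρ⟩ := Pool.Agent.T2H09.DH.exists_rho hn
    have hlt : ρ < R := by
      rw [← hρ] at hR
      exact lt_of_pow_lt_pow_left₀ (n - 1) hR0.le hR
    obtain ⟨K, hK, h1⟩ := Pool.Agent.T2H09.DH.gen2 hn h0 hρ hlt
    refine ⟨K, hK, fun c hc N T hT M hM => ?_⟩
    rw [P_eq, W_eq]
    exact h1 c hc N T hT M hM
  · intro ε hε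
    obtain ⟨C, hC, h1⟩ := Pool.Agent.T2H09.DH.power hn hε
    refine ⟨C, hC, fun c hc N => ?_⟩
    rw [P_eq]
    exact h1 c hc N
  · intro c hc χ hχ h
    simp only [P_eq] at h
    exact Pool.Agent.T2H09.DH.crit hn hc hχ h
  · intro h3
    have hn3 : (3 : ℝ) ≤ n := by exact_mod_cast h3
    have hpow : ∀ m : ℕ, 3 ≤ m → 2 ^ m < m ^ (m - 1) := by
      intro m hm
      induction m, hm using Nat.le_induction with
      | base => norm_num
      | succ m hm ih =>
        have e1 : m + 1 - 1 = (m - 1) + 1 := by omega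
        rw [e1, pow_succ, pow_succ]
        have e2 : m ^ (m - 1) ≤ (m + 1) ^ (m - 1) := Nat.pow_le_pow_left (by omega) _
        calc 2 ^ m * 2 < m ^ (m - 1) * 2 := by omega
          _ ≤ (m + 1) ^ (m - 1) * (m + 1) := Nat.mul_le_mul e2 (by omega)
    have h1 := hpow n h3
    have h2 : (2 : ℝ) ^ n < (n : ℝ) ^ (n - 1) := by exact_mod_cast h1
    have h4 := Real.log_lt_log (by positivity) h2
    rw [Real.log_pow, Real.log_pow, Nat.cast_sub (by omega)] at h4
    push_cast at h4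
    rw [div_mul_eq_mul_div, div_lt_iff₀ (by linarith), Real.log_mul (by norm_num) (by positivity)]
    nlinarith

end Pool.Agent.Results.MP_af9036_an.CriticalOrbitInequality
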