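import Mathlib
import Pool.Prelude.Def_F_c31e40fa
import Pool.Agent.T2H09.IX.Ineq

set_option autoImplicit false

open Filter Metric Topology

namespace Pool.Agent.Results.MP_af9036_an.MultiplierInequality

/-- The polynomial `z ^ d + c`. -/
def f (d : ℕ) (c : ℂ) : ℂ → ℂ := fun z => z ^ d + c

/-- The parameters `c` for which `z ^ d + c` has an attracting cycle. -/
def hyp (d : ℕ) : Set ℂ := {c | ∃ m z, N62a1eb23.IsAttractingCycle (f d c) m z}

/-- The derivative of the `N`-th iterate of `z ^ d + c` at the point `z`. -/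
noncomputable def mult (d N : ℕ) (c z : ℂ) : ℂ := deriv (f d c)^[N] z

private lemma mult_eq (d N : ℕ) (c z : ℂ) : mult d N c z = Pool.Agent.W746.LD.P d c z N :=
  (Pool.Agent.W746.LD.hasDerivAt_orb (n := d) (c := c) z N).deriv

/-- The derivatives of the multipliers of the periodic points with respect to the parameter, against
the distance to the parameters with an attracting cycle. -/
theorem result (d : ℕ) (hd : 2 ≤ d) :
    -- (1) holomorphic discs in an open set of parameters without attracting cycles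
    (∀ V : Set ℂ, IsOpen V → (∀ c ∈ V, c ∉ hyp d) → ∀ γ : ℂ → ℂ,
      DifferentiableOn ℂ γ (ball 0 1) → (∀ s ∈ ball (0 : ℂ) 1, γ s ∈ V) →
      ∀ N : ℕ, 1 ≤ N → ∀ (m : ℕ) (Z : Fin m → ℂ → ℂ), (∀ i, ContinuousAt (Z i) 0) →
      (∀ i, ∀ᶠ s in 𝓝 (0 : ℂ), (f d (γ s))^[N] (Z i s) = Z i s) →
      Function.Injective (fun i => Z i 0) →
        ∑ i, ‖deriv (fun s => mult d N (γ s) (Z i s)) 0‖ / ‖1 - mult d N (γ 0) (Z i 0)‖ ^ 2 ≤
          (d : ℝ) ^ N) ∧
    -- (2) the distance, with all points of period `N`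
    (∀ c : ℂ, ∀ N : ℕ, 1 ≤ N → ∀ (m : ℕ) (Z : Fin m → ℂ → ℂ), (∀ i, ContinuousAt (Z i) c) →
      (∀ i, ∀ᶠ t in 𝓝 c, (f d t)^[N] (Z i t) = Z i t) → Function.Injective (fun i => Z i c) →
        infDist c (hyp d) *
          ∑ i, ‖deriv (fun t => mult d N t (Z i t)) c‖ / ‖1 - mult d N c (Z i c)‖ ^ 2 ≤
            (d : ℝ) ^ N) ∧
    -- (3) the distance, with a cycle of exact period `n` and all powers of its multiplier
    (∀ c : ℂ, ∀ n : ℕ, 1 ≤ n → ∀ Z : ℂ → ℂ, ContinuousAt Z c →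
      (∀ᶠ t in 𝓝 c, (f d t)^[n] (Z t) = Z t) →
      (∀ k, 1 ≤ k → k < n → (f d c)^[k] (Z c) ≠ Z c) → ∀ q : ℕ, 1 ≤ q →
        infDist c (hyp d) *
          (n * q * ‖mult d n c (Z c)‖ ^ (q - 1) * ‖deriv (fun t => mult d n t (Z t)) c‖) ≤
            (d : ℝ) ^ (n * q) * ‖1 - mult d n c (Z c) ^ q‖ ^ 2) := by
  refine ⟨?_, ?_, ?_⟩
  · intro V hV hno γ hγ hγV N hN m Z hZc hZf hinj
    simp only [mult_eq]
    exact Pool.Agent.T2H09.IX.disc hd hN hγ
      (fun s hs z hz => Pool.Agent.T2H09.IX.rep_open hd hV hno (hγV s hs) hN hz) Finset.univ Z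
      (fun i _ => hZc i) (fun i _ => hZf i) hinj.injOn
  · intro c N hN m Z hZc hZf hinj
    simp only [mult_eq]
    exact Pool.Agent.T2H09.IX.dist_ineq hd hN Finset.univ Z (fun i _ => hZc i) (fun i _ => hZf i)
      hinj.injOn
  · intro c n hn Z hZc hZf hmin q hq
    simp only [mult_eq]
    refine Pool.Agent.T2H09.IX.cycle_ineq hd hn hq hZc hZf ?_
    have hfix : (f d c)^[n] (Z c) = Z c := hZf.self_of_nhds
    have key : ∀ i j, i < j → j < n → (f d c)^[i] (Z c) ≠ (f d c)^[j] (Z c) := by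
      intro i j hij hj h
      apply hmin (n - j + i) (by omega) (by omega)
      rw [Function.iterate_add_apply, h, ← Function.iterate_add_apply,
        show n - j + j = n by omega, hfix]
    intro i hi j hj h
    rcases lt_trichotomy i j with h1 | h1 | h1
    · exact absurd h (key i j h1 hj)
    · exact h1
    · exact absurd h.symm (key j i h1 hi)

end Pool.Agent.Results.MP_af9036_an.MultiplierInequality
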