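import Pool.Agent.T2H09.SG.E

set_option autoImplicit false

/-!
# MP_b6b996_nt: lower bounds of order `√R` on every interval, for all large `R`

Let `S(x) = ∑_{n ≤ R} a(n) e(n x)`. For every `δ > 0` and `B` there are `c > 0` and `R₀` such that for all `R ≥ R₀`, all
intervals `I` of length `δ`, all complex `z` of modulus one and all integer valued `a`, `|a| ≤ B`, whose support is the set of
the squarefree numbers,

`∫_I (Re z S(x))² dx ≥ c R`,   so that   `sup_I |Re z S| ≥ c √R`.

For `a = μ` this is a local form, on every interval and in every direction, of the known lower bound `‖F_R‖_∞ ≫ √R`: no choice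
of the signs on the squarefree numbers produces a spectral gap, of any length, at any scale.

It follows from an inverse theorem for arbitrary bounded integer valued sequences: there is a period `P = P(δ, B)` such that for
all `L` and `ε > 0` there is `c > 0` with the following property: if `∫_I (Re z S)² ≤ c R` for one interval of length `δ`, then
for all but `ε R` of the `n ≤ R` the sequence has the period `P` on the window `[n - L, n + L]`.

Proof: Bessel's inequality for the local Fourier coefficients (tent functions) shows that a counterexample has a limit, a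
bounded integer valued sequence on `ℤ` with no spectrum in an interval. Two such sequences that agree on a half line are
equal: a one-sided absolutely convergent Fourier series that vanishes on an arc is zero (multiply its rotations). By
compactness one value is determined by the next `M` values, and the box principle gives a bounded period. (This is a finitary
version of the theorem of Borichev, Sodin and Weiss that finitely valued stationary processes with a spectral gap are
periodic.) A squarefree number is never the centre of a long periodic window of a sequence with support the squarefree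
numbers, because some `n + P i`, `i < p²`, is divisible by `p²`.
-/

open Finset MeasureTheory

namespace Pool.Agent.Results.MP_b6b996_nt.NoSpectralGap

/-- the exponential sum `∑_{n=1}^R a(n) e(n x)`, `e(y) = exp(2 π i y)` -/
noncomputable def expSum (a : ℕ → ℤ) (R : ℕ) (x : ℝ) : ℂ :=
  ∑ n ∈ Finset.Icc 1 R, (a n : ℂ) * Complex.exp (2 * Real.pi * Complex.I * n * x)

/-- `a` has the period `P` on the window `[n - L, n + L]` -/
def PeriodicNear (a : ℕ → ℤ) (P L n : ℕ) : Prop := ∀ m : ℕ, n ≤ m + L → m + P ≤ n + L → a (m + P) = a m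

lemma expSum_eq (z : ℂ) (a : ℕ → ℤ) (R : ℕ) (x : ℝ) : (z * expSum a R x).re = Pool.Agent.T2H09.SG.rS z a R x := by
  unfold Pool.Agent.T2H09.SG.rS Pool.Agent.T2H09.SG.S expSum Pool.Agent.T2H09.SG.ee
  congr 2
  refine Finset.sum_congr rfl fun n _ => ?_
  congr 2
  push_cast
  ring

/-- the lower bound for the sequences supported on the squarefree numbers -/
theorem lower (δ : ℝ) (hδ : 0 < δ) (B : ℕ) :
    ∃ c : ℝ, 0 < c ∧ ∃ R₀ : ℕ, ∀ R : ℕ, R₀ ≤ R → ∀ α : ℝ, ∀ z : ℂ, ‖z‖ = 1 → ∀ a : ℕ → ℤ,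
      (∀ n, |a n| ≤ B) → (∀ n, 1 ≤ n → (a n ≠ 0 ↔ Squarefree n)) →
        c * R ≤ ∫ x in α..(α + δ), (z * expSum a R x).re ^ 2 ∧
        ∃ x ∈ Set.Icc α (α + δ), c * Real.sqrt R ≤ |(z * expSum a R x).re| := by
  obtain ⟨c, hc, R₀, h⟩ := Pool.Agent.T2H09.SG.no_gap hδ B
  refine ⟨min c (Real.sqrt (c / δ)), lt_min hc (Real.sqrt_pos.2 (by positivity)), R₀, ?_⟩
  intro R hR α z hz a ha hsq
  simp_rw [expSum_eq]
  have h1 := h R hR α z hz a ha hsq
  refine ⟨le_trans ?_ h1, ?_⟩
  · gcongr
    exact min_le_left _ _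
  · obtain ⟨x, hx, h2⟩ := Pool.Agent.T2H09.SG.exists_large (Pool.Agent.T2H09.SG.rS_cont z a R) hδ
      (show 0 ≤ c * (R : ℝ) by positivity) h1
    refine ⟨x, hx, le_trans ?_ h2⟩
    have h3 : Real.sqrt (c * R / δ) = Real.sqrt (c / δ) * Real.sqrt R := by
      rw [← Real.sqrt_mul (by positivity)]
      congr 1
      ring
    rw [h3]
    gcongr
    exact min_le_right _ _

open Classical in
theorem result :
    -- the Moebius function
    (∀ δ : ℝ, 0 < δ → ∃ c : ℝ, 0 < c ∧ ∃ R₀ : ℕ, ∀ R : ℕ, R₀ ≤ R → ∀ α : ℝ, ∀ z : ℂ, ‖z‖ = 1 →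
      c * R ≤ ∫ x in α..(α + δ), (z * expSum (fun n => ArithmeticFunction.moebius n) R x).re ^ 2 ∧
      ∃ x ∈ Set.Icc α (α + δ), c * Real.sqrt R ≤ |(z * expSum (fun n => ArithmeticFunction.moebius n) R x).re|) ∧
    -- all integer valued bounded sequences with support the squarefree numbers
    (∀ δ : ℝ, 0 < δ → ∀ B : ℕ, ∃ c : ℝ, 0 < c ∧ ∃ R₀ : ℕ, ∀ R : ℕ, R₀ ≤ R → ∀ α : ℝ, ∀ z : ℂ, ‖z‖ = 1 →
      ∀ a : ℕ → ℤ, (∀ n, |a n| ≤ B) → (∀ n, 1 ≤ n → (a n ≠ 0 ↔ Squarefree n)) →
        c * R ≤ ∫ x in α..(α + δ), (z * expSum a R x).re ^ 2 ∧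
        ∃ x ∈ Set.Icc α (α + δ), c * Real.sqrt R ≤ |(z * expSum a R x).re|) ∧
    -- the inverse theorem
    (∀ δ : ℝ, 0 < δ → ∀ B : ℕ, ∃ P : ℕ, 1 ≤ P ∧ ∀ (L : ℕ) (ε : ℝ), 0 < ε → ∃ c : ℝ, 0 < c ∧ ∃ R₀ : ℕ,
      ∀ R : ℕ, R₀ ≤ R → ∀ α : ℝ, ∀ z : ℂ, ‖z‖ = 1 → ∀ a : ℕ → ℤ, (∀ n, |a n| ≤ B) →
        ∫ x in α..(α + δ), (z * expSum a R x).re ^ 2 ≤ c * R →
        (#({n ∈ Icc 1 R | ¬ PeriodicNear a P L n} : Finset ℕ) : ℝ) ≤ ε * R) := by
  refine ⟨fun δ hδ => ?_, fun δ hδ B => lower δ hδ B, fun δ hδ B => ?_⟩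
  · obtain ⟨c, hc, R₀, h⟩ := lower δ hδ 1
    refine ⟨c, hc, R₀, fun R hR α z hz => h R hR α z hz _ (fun n => ?_) fun n _ => ?_⟩
    · exact_mod_cast ArithmeticFunction.abs_moebius_le_one
    · exact ArithmeticFunction.moebius_ne_zero_iff_squarefree
  · obtain ⟨P, hP, h⟩ := Pool.Agent.T2H09.SG.inverse hδ B
    refine ⟨P, hP, fun L ε hε => ?_⟩
    obtain ⟨c, hc, R₀, h⟩ := h L ε hε
    refine ⟨c, hc, R₀, fun R hR α z hz a ha hint => ?_⟩
    simp_rw [expSum_eq] at hint
    exact h R hR α z hz a ha hint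

end Pool.Agent.Results.MP_b6b996_nt.NoSpectralGap
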