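import Mathlib
import Pool.Prelude.Def_F_c31e40fa
import Pool.Agent.T2H09.LU.Fin

set_option autoImplicit false

open Filter Metric

namespace Pool.Agent.Results.MP_af9036_an.PositiveUpperExponent

/-- The polynomial `z ^ n + c`. -/
def f (n : ℕ) (c : ℂ) : ℂ → ℂ := fun z => z ^ n + c

/-- The parameters `c` for which `z ^ n + c` has an attracting cycle. -/
def hyp (n : ℕ) : Set ℂ := {c | ∃ m z, N62a1eb23.IsAttractingCycle (f n c) m z}

/-- The derivative of the `N`-th iterate at the critical value `c`. -/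
noncomputable def P (n : ℕ) (c : ℂ) (N : ℕ) : ℂ := deriv (f n c)^[N] c

private lemma P_eq (n : ℕ) (c : ℂ) (N : ℕ) : P n c N = Pool.Agent.W746.LD.P n c c N :=
  (Pool.Agent.W746.LD.hasDerivAt_orb (n := n) (c := c) c N).deriv

/-- Positive upper Lyapunov exponent of the critical value. -/
theorem result (n : ℕ) (hn : 2 ≤ n) (χ : ℝ) (hχ : 0 < χ) :
    -- (1) one large derivative gives an exponentially small distance
    (∃ C ε : ℝ, 0 < C ∧ 0 < ε ∧ ∀ c ∈ N62a1eb23.multibrotSet n, ∀ N : ℕ,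
      Real.exp (χ * N) ≤ ‖P n c N‖ → infDist c (hyp n) ≤ C * Real.exp (-(ε * N))) ∧
    -- (2) infinitely many large derivatives give density
    (∀ c ∈ N62a1eb23.multibrotSet n, (∃ᶠ N : ℕ in atTop, Real.exp (χ * N) ≤ ‖P n c N‖) →
      c ∈ closure (hyp n)) := by
  refine ⟨?_, ?_⟩
  · obtain ⟨C, ε, hC, hε, h⟩ := Pool.Agent.T2H09.LU.upperQ hn hχ
    refine ⟨C, ε, hC, hε, fun c hc N hN => ?_⟩
    rw [P_eq] at hN
    exact h c hc N hN
  · intro c hc h
    simp only [P_eq] at h
    exact Pool.Agent.T2H09.LU.upper hn hc hχ h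

end Pool.Agent.Results.MP_af9036_an.PositiveUpperExponent
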