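import Mathlib
import Pool.Prelude.Def_F_c31e40fa
import Pool.Agent.T2H09.LU.StrCor

set_option autoImplicit false

open Filter Metric

namespace Pool.Agent.Results.MP_af9036_an.StretchedExponentialGrowth

/-- The polynomial `z ^ n + c`. -/
def f (n : ℕ) (c : ℂ) : ℂ → ℂ := fun z => z ^ n + c

/-- The parameters `c` for which `z ^ n + c` has an attracting cycle. -/
def hyp (n : ℕ) : Set ℂ := {c | ∃ m z, N62a1eb23.IsAttractingCycle (f n c) m z}

/-- The derivative of the `N`-th iterate at the critical value `c`. -/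
noncomputable def P (n : ℕ) (c : ℂ) (N : ℕ) : ℂ := deriv (f n c)^[N] c

private lemma P_eq (n : ℕ) (c : ℂ) (N : ℕ) : P n c N = Pool.Agent.W746.LD.P n c c N :=
  (Pool.Agent.W746.LD.hasDerivAt_orb (n := n) (c := c) c N).deriv

/-- Growth of the derivatives at the critical value against the distance to the parameters with an
attracting cycle. -/
theorem result (n : ℕ) (hn : 2 ≤ n) : ∃ C ε : ℝ, 0 < C ∧ 0 < ε ∧
    -- (1) one large derivative gives a small distance
    (∀ c ∈ N62a1eb23.multibrotSet n, ∀ N : ℕ, 2 ≤ N →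
      C * N ^ 2 * Real.log N ≤ Real.log ‖P n c N‖ ^ 3 →
      infDist c (hyp n) ≤ Real.exp (-(ε * Real.log ‖P n c N‖ ^ 2 / N))) ∧
    -- (2) infinitely many large derivatives give density
    (∀ c ∈ N62a1eb23.multibrotSet n,
      (∃ᶠ N : ℕ in atTop, C * N ^ 2 * Real.log N ≤ Real.log ‖P n c N‖ ^ 3) →
      c ∈ closure (hyp n)) ∧
    -- (3) in particular stretched exponential growth with an exponent larger than `2 / 3`
    (∀ c ∈ N62a1eb23.multibrotSet n, ∀ χ β : ℝ, 0 < χ → 2 / 3 < β →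
      (∃ᶠ N : ℕ in atTop, Real.exp (χ * (N : ℝ) ^ β) ≤ ‖P n c N‖) → c ∈ closure (hyp n)) := by
  obtain ⟨C, ε, hC, hε, h⟩ := Pool.Agent.T2H09.LU.strong hn
  have h2 : ∀ c ∈ N62a1eb23.multibrotSet n,
      (∃ᶠ N : ℕ in atTop, C * N ^ 2 * Real.log N ≤ Real.log ‖P n c N‖ ^ 3) →
      c ∈ closure (hyp n) := by
    intro c hc hf
    simp only [P_eq] at hf
    exact Pool.Agent.T2H09.LU.strong_closure hn hC hε h hc hf
  refine ⟨C, ε, hC, hε, ?_, h2, ?_⟩
  · intro c hc N hN hyp
    rw [P_eq] at hyp ⊢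
    exact h c hc N hN hyp
  · intro c hc χ β hχ hβ hf
    exact h2 c hc (Pool.Agent.T2H09.LU.freq_of_rpow hχ hβ hf)

end Pool.Agent.Results.MP_af9036_an.StretchedExponentialGrowth
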